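import Pool.Agent.H6.FB.Stmts

/-!
# Project FB, module BBB: the function `bb`
-/

set_option autoImplicit false

open Metric Set Filter Topology

namespace Pool.Agent.H6.FB

theorem bbb_tt_deriv : HasDerivAt tt ((cc : ℂ) / 64) 0 := by
  have h1 : HasDerivAt (fun s : ℂ => 1 - (cc : ℂ) * s) (-(cc : ℂ)) 0 := by
    have := ((hasDerivAt_id' (0 : ℂ)).const_mul (cc : ℂ)).const_sub 1
    simpa using this
  have h2 : (1 - (cc : ℂ) * 0) ∈ Complex.slitPlane := by
    rw [mul_zero, sub_zero]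
    exact Complex.one_mem_slitPlane
  have h3 := (h1.clog h2).const_mul (-(1 / 64) : ℂ)
  have h4 : (-(1 / 64) : ℂ) * (-(cc : ℂ) / (1 - (cc : ℂ) * 0)) = (cc : ℂ) / 64 := by
    rw [mul_zero, sub_zero, div_one]
    ring
  rw [← h4]
  exact h3

theorem bbb_LL_zero : LL 0 = (cc : ℂ) / 64 := by
  unfold LL
  rw [dslope_same]
  exact bbb_tt_deriv.deriv

theorem bbb_LL_mul (h0 : tt 0 = 0) (s : ℂ) : s * LL s = tt s := by
  have h := sub_smul_dslope tt 0 s
  rw [h0, sub_zero, sub_zero, smul_eq_mul] at h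
  exact h

theorem bbb_thm (h1 : TTAStmt) (h2 : TTBStmt) (h3 : EEEStmt) : BBBStmt := by
  obtain ⟨he0, he1, hR1, -, hcR, hc1, hc2, hs1, hs2, -⟩ := h1
  obtain ⟨hd, ht0, ht1, -, hre, hinj, -⟩ := h2
  obtain ⟨hE, hEid, hE0, hE1, hEne⟩ := h3
  have hcc : (cc : ℂ) ≠ 0 := by
    have : cc ≠ 0 := by linarith
    exact_mod_cast this
  have hE0' : E2 0 ≠ 0 := by
    rw [hE0]
    exact neg_ne_zero.2 Complex.two_pi_I_ne_zero
  have hL0 : LL 0 ≠ 0 := by
    rw [bbb_LL_zero]
    exact div_ne_zero hcc (by norm_num)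
  have hden : LL 0 * E2 0 ≠ 0 := mul_ne_zero hL0 hE0'
  have hD0 : (0 : ℂ) ∈ DD := by
    unfold DD
    have hRR : 0 < RR := by linarith
    exact mem_ball_self (by positivity)
  have hDo : IsOpen DD := isOpen_ball
  refine ⟨?_, ?_, ?_, ?_, ?_⟩
  · have hLL : DifferentiableOn ℂ LL DD :=
      (Complex.differentiableOn_dslope (hDo.mem_nhds hD0)).2 hd
    have hEt : DifferentiableOn ℂ (fun s => E2 (tt s)) DD := hE.comp_differentiableOn hd
    have hex : DifferentiableOn ℂ (fun s => Complex.exp (-(tt s) - tt s ^ 2 / 2)) DD :=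
      (hd.neg.sub ((hd.pow 2).div_const 2)).cexp
    exact ((hLL.mul hEt).mul hex).div_const _
  · unfold bb
    rw [ht0]
    simp only [neg_zero, ne_eq, OfNat.ofNat_ne_zero, not_false_eq_true, zero_pow, zero_div,
      sub_zero, Complex.exp_zero, mul_one]
    exact div_self hden
  · intro s hs
    unfold bb
    refine div_ne_zero (mul_ne_zero (mul_ne_zero ?_ ?_) (Complex.exp_ne_zero _)) hden
    · intro h
      by_cases hs0 : s = 0
      · rw [hs0] at h
        exact hL0 h
      · have h4 := bbb_LL_mul ht0 s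
        rw [h, mul_zero, ← ht0] at h4
        exact hs0 (hinj 0 hD0 s hs h4).symm
    · have h4 := hre s hs
      exact hEne _ (by linarith [h4.1]) (by linarith [h4.2.1])
  · have hLs : LL (s0 : ℂ) = 1 / (s0 : ℂ) := by
      have h4 := bbb_LL_mul ht0 (s0 : ℂ)
      rw [ht1] at h4
      have h5 : (s0 : ℂ) ≠ 0 := by
        have : s0 ≠ 0 := by linarith
        exact_mod_cast this
      field_simp
      linear_combination h4
    have hbs : bb (s0 : ℂ) = -((64 * Real.exp (-(3 / 2)) / (cc * s0) : ℝ) : ℂ) := by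
      unfold bb
      rw [ht1, hLs, hE1, hE0, bbb_LL_zero]
      have h5 : (s0 : ℂ) ≠ 0 := by
        have : s0 ≠ 0 := by linarith
        exact_mod_cast this
      have h6 : (-1 - 1 ^ 2 / 2 : ℂ) = ((-(3 / 2) : ℝ) : ℂ) := by
        push_cast
        ring
      rw [h6, ← Complex.ofReal_exp]
      push_cast
      have h7 : (Real.pi : ℂ) ≠ 0 := by exact_mod_cast Real.pi_ne_zero
      have h8 := Complex.I_ne_zero
      field_simp
    rw [hbs, norm_neg, Complex.norm_real, Real.norm_of_nonneg (by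
      have := Real.exp_pos (-(3 / 2))
      positivity)]
    have h9 : cc * s0 = 1 - e0 := by
      unfold s0
      field_simp
    rw [h9, le_div_iff₀ (by linarith)]
    have h10 : (7 / 32 : ℝ) ≤ Real.exp (-(3 / 2)) := by
      rw [Real.exp_neg, le_inv_comm₀ (by norm_num) (Real.exp_pos _)]
      have h11 : Real.exp (3 / 2) ^ 2 ≤ (32 / 7 : ℝ) ^ 2 := by
        rw [← Real.exp_nat_mul]
        have h12 : ((2 : ℕ) : ℝ) * (3 / 2) = ((3 : ℕ) : ℝ) * 1 := by norm_num
        rw [h12, Real.exp_nat_mul]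
        have h13 := Real.exp_one_lt_d9
        calc Real.exp 1 ^ 3 ≤ (2.7182818286 : ℝ) ^ 3 :=
              pow_le_pow_left₀ (Real.exp_pos 1).le h13.le 3
          _ ≤ (32 / 7 : ℝ) ^ 2 := by norm_num
      have h14 := abs_le_of_sq_le_sq' h11 (by norm_num)
      have h15 : (7 / 32 : ℝ)⁻¹ = 32 / 7 := by norm_num
      rw [h15]
      exact h14.2
    nlinarith
  · refine ⟨-1 / (LL 0 * E2 0), div_ne_zero (by norm_num) hden, ?_⟩
    intro s _
    rw [hEid]
    have h4 := bbb_LL_mul ht0 s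
    unfold aa AA bb
    have h5 : Complex.exp (tt s + tt s ^ 2 / 2) * Complex.exp (-(tt s) - tt s ^ 2 / 2) = 1 := by
      rw [← Complex.exp_add]
      have : tt s + tt s ^ 2 / 2 + (-(tt s) - tt s ^ 2 / 2) = 0 := by ring
      rw [this, Complex.exp_zero]
    calc s * ((1 - tt s) * Complex.exp (tt s + tt s ^ 2 / 2)) *
          (LL s * E2 (tt s) * Complex.exp (-(tt s) - tt s ^ 2 / 2) / (LL 0 * E2 0))
        = (s * LL s) * (1 - tt s) * E2 (tt s) / (LL 0 * E2 0) *
          (Complex.exp (tt s + tt s ^ 2 / 2) * Complex.exp (-(tt s) - tt s ^ 2 / 2)) := by ring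
      _ = -1 / (LL 0 * E2 0) * (tt s * (tt s - 1) * E2 (tt s)) := by
          rw [h5, h4]
          ring

end Pool.Agent.H6.FB
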