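import Pool.Agent.H6.FB.Stmts

/-!
# Project FB, module BDA: `AA` is close to `1`
-/

set_option autoImplicit false

open Metric Set Filter Topology

namespace Pool.Agent.H6.FB

theorem bda_deriv (t : ℂ) : HasDerivAt AA (-t ^ 2 * Complex.exp (t + t ^ 2 / 2)) t := by
  have h1 : HasDerivAt (fun t : ℂ => 1 - t) (-1) t := by
    simpa using (hasDerivAt_id t).const_sub 1
  have h2 : HasDerivAt (fun t : ℂ => t + t ^ 2 / 2) (1 + (2 * t) / 2) t := by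
    have h5 := (hasDerivAt_id' t).fun_add ((hasDerivAt_pow 2 t).div_const 2)
    have h6 : (1 : ℂ) + ((2 : ℕ) : ℂ) * t ^ (2 - 1) / 2 = 1 + (2 * t) / 2 := by norm_num
    rw [← h6]
    exact h5
  have h3 := h1.mul h2.cexp
  have h4 : (-1 : ℂ) * Complex.exp (t + t ^ 2 / 2) +
      (1 - t) * (Complex.exp (t + t ^ 2 / 2) * (1 + (2 * t) / 2)) =
      -t ^ 2 * Complex.exp (t + t ^ 2 / 2) := by ring
  rw [← h4]
  exact h3

theorem bda_thm : BDAStmt := by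
  intro t
  have h0 : AA 0 = 1 := by
    unfold AA
    simp
  have hb : ∀ w ∈ closedBall (0 : ℂ) ‖t‖, ‖-w ^ 2 * Complex.exp (w + w ^ 2 / 2)‖ ≤
      ‖t‖ ^ 2 * Real.exp (‖t‖ + ‖t‖ ^ 2 / 2) := by
    intro w hw
    rw [mem_closedBall_zero_iff] at hw
    rw [norm_mul, norm_neg, norm_pow, Complex.norm_exp]
    have h1 : (w + w ^ 2 / 2).re ≤ ‖t‖ + ‖t‖ ^ 2 / 2 := by
      calc (w + w ^ 2 / 2).re ≤ ‖w + w ^ 2 / 2‖ := Complex.re_le_norm _
        _ ≤ ‖w‖ + ‖w ^ 2 / 2‖ := norm_add_le _ _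
        _ = ‖w‖ + ‖w‖ ^ 2 / 2 := by
            rw [norm_div, norm_pow]
            norm_num
        _ ≤ ‖t‖ + ‖t‖ ^ 2 / 2 := by
            have := pow_le_pow_left₀ (norm_nonneg w) hw 2
            linarith
    exact mul_le_mul (pow_le_pow_left₀ (norm_nonneg w) hw 2) (Real.exp_le_exp.2 h1)
      (Real.exp_pos _).le (by positivity)
  have h := Convex.norm_image_sub_le_of_norm_hasDerivWithin_le
    (fun w _ => (bda_deriv w).hasDerivWithinAt) hb (convex_closedBall (0 : ℂ) ‖t‖)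
    (show (0 : ℂ) ∈ closedBall (0 : ℂ) ‖t‖ by simp)
    (show t ∈ closedBall (0 : ℂ) ‖t‖ by simp)
  rw [h0, sub_zero] at h
  calc ‖AA t - 1‖ ≤ ‖t‖ ^ 2 * Real.exp (‖t‖ + ‖t‖ ^ 2 / 2) * ‖t‖ := h
    _ = ‖t‖ ^ 3 * Real.exp (‖t‖ + ‖t‖ ^ 2 / 2) := by ring

end Pool.Agent.H6.FB
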