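import Pool.Agent.H6.FB.Stmts

/-!
# Project FB, module EEE: the entire function `E2`
-/

set_option autoImplicit false

open Metric Set Filter Topology

namespace Pool.Agent.H6.FB

/-- `exp (2 π i w) - 1` -/
noncomputable def eee_f (w : ℂ) : ℂ := Complex.exp (2 * Real.pi * Complex.I * w) - 1

theorem eee_f_deriv (w : ℂ) :
    HasDerivAt eee_f (Complex.exp (2 * Real.pi * Complex.I * w) * (2 * Real.pi * Complex.I)) w := by
  have h1 : HasDerivAt (fun w : ℂ => 2 * Real.pi * Complex.I * w) (2 * Real.pi * Complex.I) w := by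
    simpa using (hasDerivAt_id w).const_mul (2 * Real.pi * Complex.I)
  exact h1.cexp.sub_const 1

theorem eee_f_diff : Differentiable ℂ eee_f := fun w => (eee_f_deriv w).differentiableAt

theorem eee_f_zero : eee_f 0 = 0 := by
  unfold eee_f
  simp

theorem eee_f_shift (w : ℂ) : eee_f (w - 1) = eee_f w := by
  unfold eee_f
  rw [mul_sub, mul_one, Complex.exp_sub, Complex.exp_two_pi_mul_I, div_one]

theorem eee_E1_eq : E1 = dslope eee_f 0 := rfl

theorem eee_E1_diff : Differentiable ℂ E1 := by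
  rw [eee_E1_eq]
  have h := (Complex.differentiableOn_dslope (f := eee_f) (c := 0) (s := univ) univ_mem).2
    eee_f_diff.differentiableOn
  exact fun w => (h w (mem_univ w)).differentiableAt univ_mem

theorem eee_E1_mul (w : ℂ) : w * E1 w = eee_f w := by
  have h := sub_smul_dslope eee_f 0 w
  rw [eee_f_zero, sub_zero, sub_zero, smul_eq_mul] at h
  rw [eee_E1_eq]
  exact h

theorem eee_E1_neg : E1 (-1) = 0 := by
  have h := eee_E1_mul (-1)
  have h2 : eee_f (-1) = 0 := by
    have := eee_f_shift 0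
    rw [zero_sub, eee_f_zero] at this
    exact this
  rw [h2] at h
  have h3 : (-1 : ℂ) ≠ 0 := by norm_num
  exact (mul_eq_zero.1 h).resolve_left h3

theorem eee_E2_diff : Differentiable ℂ E2 := by
  have h0 : Differentiable ℂ (fun w : ℂ => E1 (w - 1)) :=
    eee_E1_diff.comp (differentiable_id.sub_const 1)
  have h := (Complex.differentiableOn_dslope (f := fun w : ℂ => E1 (w - 1)) (c := 0)
    (s := univ) univ_mem).2 h0.differentiableOn
  exact fun w => (h w (mem_univ w)).differentiableAt univ_mem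

theorem eee_E2_mul (w : ℂ) : w * E2 w = E1 (w - 1) := by
  have h := sub_smul_dslope (fun w : ℂ => E1 (w - 1)) 0 w
  rw [sub_zero, smul_eq_mul] at h
  have h2 : E1 (0 - 1) = 0 := by
    rw [zero_sub]
    exact eee_E1_neg
  have h3 : w * E2 w = E1 (w - 1) - E1 (0 - 1) := h
  rw [h3, h2, sub_zero]

theorem eee_id (w : ℂ) : eee_f w = w * (w - 1) * E2 w := by
  have h1 := eee_E2_mul w
  have h2 := eee_E1_mul (w - 1)
  rw [eee_f_shift] at h2
  rw [← h2, ← h1]
  ring

theorem eee_der (w : ℂ) : Complex.exp (2 * Real.pi * Complex.I * w) * (2 * Real.pi * Complex.I) =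
    (2 * w - 1) * E2 w + w * (w - 1) * deriv E2 w := by
  have h1 := eee_f_deriv w
  have h2 : HasDerivAt (fun w : ℂ => w * (w - 1)) (1 * (w - 1) + w * 1) w :=
    (hasDerivAt_id' w).mul ((hasDerivAt_id' w).sub_const 1)
  have h3 := h2.mul (eee_E2_diff w).hasDerivAt
  have h4 : eee_f = (fun w : ℂ => w * (w - 1)) * E2 := by
    funext v
    exact eee_id v
  rw [h4] at h1
  rw [h1.unique h3]
  ring

theorem eee_zero : E2 0 = -(2 * Real.pi * Complex.I) := by
  have h := eee_der 0
  simp only [mul_zero, Complex.exp_zero, one_mul, zero_sub, zero_mul, add_zero] at h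
  rw [h]
  ring

theorem eee_one : E2 1 = 2 * Real.pi * Complex.I := by
  have h := eee_der 1
  rw [mul_one, Complex.exp_two_pi_mul_I] at h
  have h2 : (2 * 1 - 1 : ℂ) * E2 1 + 1 * (1 - 1) * deriv E2 1 = E2 1 := by ring
  rw [h2, one_mul] at h
  exact h.symm

theorem eee_pi_ne : (2 * Real.pi * Complex.I : ℂ) ≠ 0 := Complex.two_pi_I_ne_zero

theorem eee_thm : EEEStmt := by
  refine ⟨eee_E2_diff, eee_id, eee_zero, eee_one, ?_⟩
  intro w h1 h2 h0
  have h := eee_id w
  rw [h0, mul_zero] at h
  have h3 : Complex.exp (2 * Real.pi * Complex.I * w) = 1 := by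
    unfold eee_f at h
    exact sub_eq_zero.1 h
  rw [Complex.exp_eq_one_iff] at h3
  obtain ⟨n, hn⟩ := h3
  have h4 : w = n := by
    have h5 : (2 * Real.pi * Complex.I) * w = (2 * Real.pi * Complex.I) * n := by
      rw [hn]
      ring
    exact mul_left_cancel₀ eee_pi_ne h5
  rw [h4, Complex.intCast_re] at h1 h2
  have h6 : (-1 : ℤ) < n := by exact_mod_cast h1
  have h7 : n < (2 : ℤ) := by exact_mod_cast h2
  have h8 : n = 0 ∨ n = 1 := by omega
  rcases h8 with h8 | h8
  · rw [h4, h8, Int.cast_zero, eee_zero] at h0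
    exact eee_pi_ne (neg_eq_zero.1 h0)
  · rw [h4, h8, Int.cast_one, eee_one] at h0
    exact eee_pi_ne h0

end Pool.Agent.H6.FB
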