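import Pool.Agent.H6.FB.Stmts

/-!
# Project FB, module OSA: Osgood's theorem in dimension one
-/

set_option autoImplicit false

open Metric Set Filter Topology

namespace Pool.Agent.H6.FB

theorem osa_not_const (f : ℂ → ℂ) (U : Set ℂ) (hU : IsOpen U) (hi : InjOn f U) (p : ℂ)
    (hp : p ∈ U) : ¬ ∀ᶠ z in 𝓝 p, f z = f p := by
  intro h
  have h1 : ∀ᶠ z in 𝓝 p, z = p := by
    filter_upwards [h, hU.mem_nhds hp] with z hz hzU
    exact hi hzU hp hz
  have h2 : ∀ᶠ z in 𝓝[≠] p, z = p := h1.filter_mono nhdsWithin_le_nhds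
  have h3 : ∀ᶠ z in 𝓝[≠] p, z ≠ p := eventually_mem_nhdsWithin
  obtain ⟨z, hz1, hz2⟩ := (h2.and h3).exists
  exact hz2 hz1

theorem osa_open (f : ℂ → ℂ) (U : Set ℂ) (hU : IsOpen U) (hf : DifferentiableOn ℂ f U)
    (hi : InjOn f U) (p : ℂ) (hp : p ∈ U) : 𝓝 (f p) ≤ map f (𝓝 p) := by
  have ha : AnalyticAt ℂ f p := (hf.analyticOnNhd hU) p hp
  exact ha.eventually_constant_or_nhds_le_map_nhds.resolve_left
    (osa_not_const f U hU hi p hp)

theorem osa_cont (f : ℂ → ℂ) (U : Set ℂ) (hU : IsOpen U) (hf : DifferentiableOn ℂ f U)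
    (hi : InjOn f U) (g : ℂ → ℂ) (hg : ∀ z ∈ U, g (f z) = z) (p : ℂ) (hp : p ∈ U) :
    Tendsto g (𝓝 (f p)) (𝓝 p) := by
  have h1 := osa_open f U hU hf hi p hp
  intro N hN
  have h2 : N ∩ U ∈ 𝓝 p := inter_mem hN (hU.mem_nhds hp)
  have h3 : f '' (N ∩ U) ∈ map f (𝓝 p) := image_mem_map h2
  have h4 : f '' (N ∩ U) ∈ 𝓝 (f p) := h1 h3
  rw [mem_map]
  refine mem_of_superset h4 ?_
  rintro _ ⟨z, ⟨hzN, hzU⟩, rfl⟩
  show g (f z) ∈ N
  rw [hg z hzU]
  exact hzN

theorem osa_thm : OSAStmt := by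
  intro f U hU hf hi p hp h0
  set g : ℂ → ℂ := Function.invFunOn f U with hgdef
  have hg : ∀ z ∈ U, g (f z) = z := fun z hz => hi.leftInvOn_invFunOn hz
  have ha : AnalyticAt ℂ f p := (hf.analyticOnNhd hU) p hp
  -- the zero of the derivative is isolated
  have hne : ∀ᶠ z in 𝓝[≠] p, deriv f z ≠ 0 := by
    rcases ha.deriv.eventually_eq_zero_or_eventually_ne_zero with h | h
    · exfalso
      apply osa_not_const f U hU hi p hp
      have hUp : ∀ᶠ z in 𝓝 p, z ∈ U := hU.mem_nhds hp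
      obtain ⟨r, hr, hball⟩ := Metric.eventually_nhds_iff_ball.1 (h.and hUp)
      filter_upwards [ball_mem_nhds p hr] with z hz
      have h1 : ∀ w ∈ ball p r, DifferentiableAt ℂ f w := fun w hw =>
        (hf w (hball w hw).2).differentiableAt (hU.mem_nhds (hball w hw).2)
      have h2 := (convex_ball p r).norm_image_sub_le_of_norm_deriv_le (f := f) (C := 0) h1
        (fun w hw => by rw [(hball w hw).1, norm_zero]) (mem_ball_self hr) hz
      rw [zero_mul] at h2
      exact sub_eq_zero.1 (norm_le_zero_iff.1 h2)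
    · exact h
  -- `g` is differentiable near `f p`, except at `f p`
  have hgd : ∀ᶠ w in 𝓝[≠] (f p), DifferentiableAt ℂ g w := by
    have hop := osa_open f U hU hf hi p hp
    have hUp : ∀ᶠ z in 𝓝 p, z ∈ U := hU.mem_nhds hp
    have h1 : ∀ᶠ z in 𝓝 p, z ∈ U ∧ (z ≠ p → deriv f z ≠ 0) :=
      hUp.and (eventually_nhdsWithin_iff.1 hne)
    have h2 : ∀ᶠ w in 𝓝 (f p), ∃ z, (z ∈ U ∧ (z ≠ p → deriv f z ≠ 0)) ∧ f z = w := by
      have h3 : f '' {z | z ∈ U ∧ (z ≠ p → deriv f z ≠ 0)} ∈ map f (𝓝 p) := image_mem_map h1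
      exact hop h3
    rw [eventually_nhdsWithin_iff]
    filter_upwards [h2] with w hw hwp
    obtain ⟨z, ⟨hzU, hz⟩, rfl⟩ := hw
    have hzp : z ≠ p := by
      rintro rfl
      exact hwp rfl
    have hc : ContinuousAt g (f z) := by
      have := osa_cont f U hU hf hi g hg z hzU
      unfold ContinuousAt
      rw [hg z hzU]
      exact this
    have hd : HasDerivAt f (deriv f z) (g (f z)) := by
      rw [hg z hzU]
      exact ((hf z hzU).differentiableAt (hU.mem_nhds hzU)).hasDerivAt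
    refine (HasDerivAt.of_local_left_inverse hc hd (hz hzp) ?_).differentiableAt
    have hop2 := osa_open f U hU hf hi z hzU
    have h3 : f '' U ∈ map f (𝓝 z) := image_mem_map (hU.mem_nhds hzU)
    filter_upwards [hop2 h3] with w hw
    obtain ⟨x, hx, rfl⟩ := hw
    rw [hg x hx]
  have hgc : ContinuousAt g (f p) := by
    have := osa_cont f U hU hf hi g hg p hp
    unfold ContinuousAt
    rw [hg p hp]
    exact this
  have hga := Complex.analyticAt_of_differentiable_on_punctured_nhds_of_continuousAt hgd hgc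
  have h1 : HasDerivAt f (deriv f p) p := ha.differentiableAt.hasDerivAt
  have h2 : HasDerivAt g (deriv g (f p)) (f p) := hga.differentiableAt.hasDerivAt
  have h3 := h2.comp p h1
  have h4 : HasDerivAt (g ∘ f) 1 p := by
    refine (hasDerivAt_id p).congr_of_eventuallyEq ?_
    filter_upwards [hU.mem_nhds hp] with z hz
    exact hg z hz
  have h5 := h3.unique h4
  rw [h0, mul_zero] at h5
  exact zero_ne_one h5

end Pool.Agent.H6.FB
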