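import Pool.Agent.H6.FB.Stmts

/-!
# Project FB, module SEP: separation of points is stable
-/

set_option autoImplicit false

open Metric Set Filter Topology

namespace Pool.Agent.H6.FB

theorem sep_thm : SEPStmt := by
  intro E _ _ _ F hF δ hδ
  obtain ⟨U, hU, hUb, hd, hi⟩ := hF
  have hpr : ProperSpace E := FiniteDimensional.proper ℂ E
  set K : Set (E × E) := {q | q ∈ closedBall (0 : E) 1 ×ˢ closedBall (0 : E) 1 ∧
    δ ≤ ‖q.1 - q.2‖} with hK
  have hKc : IsCompact K := by
    have h1 : IsCompact (closedBall (0 : E) 1 ×ˢ closedBall (0 : E) 1) :=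
      (isCompact_closedBall 0 1).prod (isCompact_closedBall 0 1)
    have h2 : IsClosed {q : E × E | δ ≤ ‖q.1 - q.2‖} :=
      isClosed_le continuous_const (by fun_prop)
    exact h1.inter_right h2
  have hcF : ContinuousOn F (closedBall (0 : E) 1) := hd.continuousOn.mono hUb
  have hcont : ContinuousOn (fun q : E × E => ‖F q.1 - F q.2‖) K := by
    refine ContinuousOn.norm (ContinuousOn.sub ?_ ?_)
    · exact hcF.comp continuousOn_fst (fun q hq => hq.1.1)
    · exact hcF.comp continuousOn_snd (fun q hq => hq.1.2)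
  by_cases hne : K.Nonempty
  · obtain ⟨q, hq, hmin⟩ := hKc.exists_isMinOn hne hcont
    set m := ‖F q.1 - F q.2‖ with hm
    have hm0 : 0 < m := by
      rw [hm, norm_pos_iff, sub_ne_zero]
      intro h
      have h1 := hi (hUb hq.1.1) (hUb hq.1.2) h
      have h2 := hq.2
      rw [h1, sub_self, norm_zero] at h2
      linarith
    refine ⟨m / 2, by linarith, m / 4, by linarith, ?_⟩
    intro f hf x hx y hy hxy
    have h1 : m ≤ ‖F x - F y‖ := hmin (show (x, y) ∈ K from ⟨⟨hx, hy⟩, hxy⟩)
    have h2 := hf x hx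
    have h3 := hf y hy
    have h4 : ‖F x - F y‖ ≤ ‖f x - f y‖ + ‖f x - F x‖ + ‖f y - F y‖ := by
      have h5 : F x - F y = (f x - f y) - (f x - F x) + (f y - F y) := by abel
      rw [h5]
      exact (norm_add_le _ _).trans (add_le_add (norm_sub_le _ _) le_rfl)
    linarith
  · refine ⟨1, one_pos, 1, one_pos, ?_⟩
    intro f _ x hx y hy hxy
    exact absurd ⟨(x, y), ⟨⟨hx, hy⟩, hxy⟩⟩ hne

end Pool.Agent.H6.FB
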