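import Pool.Agent.H6.FB.Stmts

/-!
# Project FB, module TTC: pairs of points with the same value
-/

set_option autoImplicit false

open Metric Set Filter Topology

namespace Pool.Agent.H6.FB

theorem ttc_log (z : ℂ) (hz : z.re < 1 / 2) : ‖Complex.log (1 - z)‖ ≤ 2 * ‖z‖ := by
  have hs : Convex ℝ {w : ℂ | w.re < 1 / 2} := by
    have := (convex_Iio (1 / 2 : ℝ)).linear_preimage Complex.reLm
    exact this
  have hb : ∀ w ∈ {w : ℂ | w.re < 1 / 2}, ‖(-1 : ℂ) / (1 - w)‖ ≤ 2 := by
    intro w hw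
    have h1 : (1 / 2 : ℝ) ≤ ‖1 - w‖ := by
      have h2 := Complex.re_le_norm (1 - w)
      have h3 : (1 - w).re = 1 - w.re := by simp
      have h4 : w.re < 1 / 2 := hw
      linarith
    rw [norm_div, norm_neg, norm_one, div_le_iff₀ (by linarith)]
    linarith
  have hd : ∀ w ∈ {w : ℂ | w.re < 1 / 2},
      HasDerivWithinAt (fun w : ℂ => Complex.log (1 - w)) ((-1 : ℂ) / (1 - w))
        {w : ℂ | w.re < 1 / 2} w := by
    intro w hw
    have h1 : HasDerivAt (fun t : ℂ => 1 - t) (-1) w := by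
      simpa using (hasDerivAt_id w).const_sub 1
    refine (h1.clog ?_).hasDerivWithinAt
    left
    have h3 : (1 - w).re = 1 - w.re := by simp
    have h4 : w.re < 1 / 2 := hw
    rw [h3]
    linarith
  have h := Convex.norm_image_sub_le_of_norm_hasDerivWithin_le hd hb hs
    (show (0 : ℂ) ∈ {w : ℂ | w.re < 1 / 2} by simp) (show z ∈ {w : ℂ | w.re < 1 / 2} from hz)
  simpa using h

theorem ttc_thm (h1 : TTAStmt) (h2 : TTBStmt) : TTCStmt := by
  intro s hs s' hs' hss
  obtain ⟨he0, -, -, -, hcR, hc1, hc2, -, -, -⟩ := h1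
  obtain ⟨-, -, -, hexp, -, -, -⟩ := h2
  have ha := (hexp s hs).2
  have hb := (hexp s' hs').2
  rw [hss] at hb
  have hc : Complex.exp (-64 * (tt s + 1)) = (e0 : ℂ) * (1 - (cc : ℂ) * s) := by
    rw [mul_add, Complex.exp_add, ha]
    have : Complex.exp (-64 * 1) = (e0 : ℂ) := by
      unfold e0
      rw [Complex.ofReal_exp]
      norm_num
    rw [this, mul_comm]
  rw [hc] at hb
  -- `c s' = 1 - e0 + e0 c s`
  have hd : (cc : ℂ) * s' = 1 - (e0 : ℂ) + (e0 : ℂ) * ((cc : ℂ) * s) := by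
    have h3 : (cc : ℂ) * s' = 1 - (1 - (cc : ℂ) * s') := by ring
    rw [h3, ← hb]
    ring
  have hn : ‖(cc : ℂ) * s'‖ < 1 - e0 / 2 := by
    rw [norm_mul, Complex.norm_real, Real.norm_of_nonneg (by linarith), ← hcR]
    have h3 : ‖s'‖ < RR ^ 2 / 2 := by
      have := hs'
      unfold DD at this
      rwa [mem_ball_zero_iff] at this
    exact mul_lt_mul_of_pos_left h3 (by linarith)
  have hre : ((cc : ℂ) * s).re < 1 / 2 := by
    have h3 := (Complex.re_le_norm ((cc : ℂ) * s')).trans_lt hn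
    rw [hd] at h3
    have h4 : (1 - (e0 : ℂ) + (e0 : ℂ) * ((cc : ℂ) * s)).re = 1 - e0 + e0 * ((cc : ℂ) * s).re := by
      rw [Complex.add_re, Complex.sub_re, Complex.one_re, Complex.ofReal_re, Complex.re_ofReal_mul]
    rw [h4] at h3
    have h5 : e0 * ((cc : ℂ) * s).re < e0 * (1 / 2) := by linarith
    exact lt_of_mul_lt_mul_left h5 he0.le
  have hlog := ttc_log _ hre
  constructor
  · unfold tt
    rw [norm_mul]
    have h3 : ‖(-(1 / 64) : ℂ)‖ = 1 / 64 := by
      rw [norm_neg]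
      norm_num
    rw [h3]
    have h4 : ‖(cc : ℂ) * s‖ ≤ 2 * ‖s‖ := by
      rw [norm_mul, Complex.norm_real, Real.norm_of_nonneg (by linarith)]
      exact mul_le_mul_of_nonneg_right hc2.le (norm_nonneg _)
    linarith
  · have h3 : (tt s).re = -(1 / 64) * Real.log ‖1 - (cc : ℂ) * s‖ := by
      unfold tt
      have h4 : (-(1 / 64) : ℂ) = ((-(1 / 64) : ℝ) : ℂ) := by push_cast; ring
      rw [h4, Complex.re_ofReal_mul, Complex.log_re]
    rw [h3]
    have h5 : (1 / 2 : ℝ) ≤ ‖1 - (cc : ℂ) * s‖ := by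
      have h6 := Complex.re_le_norm (1 - (cc : ℂ) * s)
      have h7 : (1 - (cc : ℂ) * s).re = 1 - ((cc : ℂ) * s).re := by
        rw [Complex.sub_re, Complex.one_re]
      linarith
    have h8 : Real.log (1 / 2) ≤ Real.log ‖1 - (cc : ℂ) * s‖ := Real.log_le_log (by norm_num) h5
    have h9 : -1 ≤ Real.log (1 / 2) := by
      have h10 : Real.log (1 / 2) = - Real.log 2 := by
        rw [one_div, Real.log_inv]
      have h11 := Real.log_two_lt_d9
      rw [h10]
      linarith
    linarith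

end Pool.Agent.H6.FB
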